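import Mathlib
import Pool.Agent.Lib.MP_9c932e_co.Main

/-!
# MP_9c932e_co, Q1: the sparse random removal lemma near the 2-density threshold

The definitions (`twoDensity`, `gnpProb`, `copies`, `Degenerate`, `Removal`) are in
`Pool/Agent/Lib/MP_9c932e_co/Defs.lean`.
-/

namespace Pool.Agent.Results.MP_9c932e_co.SparseRemoval

open Pool.Agent.MP_9c932e_co Filter

/-- For every graph `H` with at least one edge, every `ε > 0` and all constants `0 < c < C` there
is `δ > 0` such that, whenever `c n^{-1/m₂(H)} ≤ p ≤ C n^{-1/m₂(H)}`, asymptotically almost surely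
every subgraph of `G_{n,p}` containing at most `δ p^{e(H)} n^{v(H)}` copies of `H` can be made
`H`-free by deleting at most `ε p n²` edges. -/
theorem result (W : Type) [Fintype W] (H : SimpleGraph W) (hH : H ≠ ⊥)
    (ε c C : ℝ) (hε : 0 < ε) (hc : 0 < c) (_hcC : c < C) :
    ∃ δ : ℝ, 0 < δ ∧ ∀ p : ℕ → ℝ, (∀ n, 0 ≤ p n ∧ p n ≤ 1) →
      (∀ᶠ n : ℕ in atTop, c * (n : ℝ) ^ (-1 / twoDensity H) ≤ p n ∧
        p n ≤ C * (n : ℝ) ^ (-1 / twoDensity H)) →
      Tendsto (fun n : ℕ => gnpProb n (p n)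
        (Removal H (δ * p n ^ H.edgeSet.ncard * (n : ℝ) ^ Fintype.card W)
          (ε * (p n * (n : ℝ) ^ 2)))) atTop (nhds 1) :=
  sparse_removal H hH hε hc

end Pool.Agent.Results.MP_9c932e_co.SparseRemoval
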